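import Mathlib
import Pool.Agent.Q95.Etf

set_option autoImplicit false

namespace Pool.Agent.Results.MP_dc1a88_an.DegreeDiffers

open Matrix

/-- A real equiangular tight frame of `N` vectors of `ℝ^r`. -/
structure IsRealETF {N r : ℕ} (v : Fin N → Fin r → ℝ) : Prop where
  unit : ∀ i, v i ⬝ᵥ v i = 1
  tight : ∑ i, Matrix.vecMulVec (v i) (v i) = ((N : ℝ) / r) • (1 : Matrix (Fin r) (Fin r) ℝ)
  equi : ∃ α : ℝ, 0 ≤ α ∧ α ≤ 1 ∧ ∀ i j, i ≠ j → |v i ⬝ᵥ v j| = α

/-- The Gram matrix. -/
def gram {N r : ℕ} (v : Fin N → Fin r → ℝ) : Matrix (Fin N) (Fin N) ℝ :=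
  Matrix.of fun i j => v i ⬝ᵥ v j

variable {N : ℕ}

/-- The number of times `a` appears in the concatenation of the tuples `i` and `j`. -/
def mult {m : ℕ} (i j : Fin m → Fin N) (a : Fin N) : ℕ :=
  (Finset.univ.filter fun k => i k = a).card + (Finset.univ.filter fun k => j k = a).card

/-- The set of the elements which appear an odd number of times in the concatenation. -/
def oddSet {m : ℕ} (i j : Fin m → Fin N) : Finset (Fin N) :=
  Finset.univ.filter fun a => Odd (mult i j a)

/-- The tuple `(1, …, 1, i)` of length `m` (the first element of the index set is `0`). -/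
def onesThen [NeZero N] (m : ℕ) (i : Fin N) : Fin m → Fin N :=
  fun k => if (k : ℕ) + 1 = m then i else 0

/-- The generalized elliptope of degree `d`. -/
def elliptope (N : ℕ) [NeZero N] (d : ℕ) : Set (Matrix (Fin N) (Fin N) ℝ) :=
  {X | ∃ Y : Matrix (Fin (d / 2) → Fin N) (Fin (d / 2) → Fin N) ℝ, Yᵀ = Y ∧
    (∀ i j, (∀ a, Even (mult i j a)) → Y i j = 1) ∧
    (∀ i j i' j', oddSet i j = oddSet i' j' → Y i j = Y i' j') ∧
    (∀ i j, Y (onesThen (d / 2) i) (onesThen (d / 2) j) = X i j) ∧
    Y.PosSemidef}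

/-- `d^*(X)`, the supremum of the positive even `d` with `X` in the elliptope of degree `d`. -/
noncomputable def dstar [NeZero N] (X : Matrix (Fin N) (Fin N) ℝ) : ℕ∞ :=
  ⨆ d ∈ {d : ℕ | 0 < d ∧ Even d ∧ X ∈ elliptope N d}, (d : ℕ∞)

/-! ### Characters -/

theorem prod_tuple {m : ℕ} (x : Fin N → ℝ) (i : Fin m → Fin N) :
    ∏ k, x (i k) = ∏ a, x a ^ (Finset.univ.filter fun k => i k = a).card := by
  rw [← Finset.prod_fiberwise (s := Finset.univ) (g := i) (f := fun k => x (i k))]
  apply Finset.prod_congr rfl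
  intro a _
  rw [Finset.prod_congr rfl (g := fun _ => x a), Finset.prod_const]
  intro k hk
  rw [(Finset.mem_filter.1 hk).2]

theorem prod_oddSet {m : ℕ} (x : Fin N → ℝ) (hx : ∀ a, x a * x a = 1) (i j : Fin m → Fin N) :
    (∏ k, x (i k)) * ∏ k, x (j k) = ∏ a ∈ oddSet i j, x a := by
  rw [prod_tuple, prod_tuple, ← Finset.prod_mul_distrib, oddSet, Finset.prod_filter]
  apply Finset.prod_congr rfl
  intro a _
  rw [← pow_add]
  change x a ^ mult i j a = _
  split_ifs with h
  · obtain ⟨t, ht⟩ := h
    rw [ht, pow_succ, pow_mul, pow_two, hx, one_pow, one_mul]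
  · rw [Nat.not_odd_iff_even] at h
    obtain ⟨t, ht⟩ := h
    rw [ht, ← two_mul, pow_mul, pow_two, hx, one_pow]

/-- The averages of `x xᵀ` over sign vectors `x` lie in every generalized elliptope. -/
theorem mem_elliptope_of_signs [NeZero N] {K : ℕ} (hK : 0 < K) (x : Fin K → Fin N → ℝ)
    (hx : ∀ k a, x k a * x k a = 1) (X : Matrix (Fin N) (Fin N) ℝ)
    (hX : ∀ a b, X a b = (1 / K : ℝ) * ∑ k, x k a * x k b) (d : ℕ) (hd : 0 < d)
    (hde : Even d) : X ∈ elliptope N d := by
  have hm : 0 < d / 2 := by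
    obtain ⟨t, ht⟩ := hde
    omega
  set m := d / 2 with hmd
  have hK' : (K : ℝ) ≠ 0 := by positivity
  refine ⟨Matrix.of fun i j => (1 / K : ℝ) * ∑ k, (∏ t, x k (i t)) * ∏ t, x k (j t), ?_, ?_, ?_,
    ?_, ?_⟩
  · ext i j
    rw [Matrix.transpose_apply, Matrix.of_apply, Matrix.of_apply]
    congr 1
    apply Finset.sum_congr rfl
    intro k _
    ring
  · intro i j h
    rw [Matrix.of_apply]
    have : ∀ k, (∏ t, x k (i t)) * ∏ t, x k (j t) = 1 := by
      intro k
      rw [prod_oddSet (x k) (hx k)]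
      have : oddSet i j = ∅ := by
        rw [oddSet, Finset.filter_eq_empty_iff]
        intro a _
        rw [Nat.not_odd_iff_even]
        exact h a
      rw [this, Finset.prod_empty]
    simp only [this, Finset.sum_const, Finset.card_univ, Fintype.card_fin, nsmul_eq_mul, mul_one]
    field_simp
  · intro i j i' j' h
    rw [Matrix.of_apply, Matrix.of_apply]
    congr 1
    apply Finset.sum_congr rfl
    intro k _
    rw [prod_oddSet (x k) (hx k), prod_oddSet (x k) (hx k), h]
  · intro a b
    rw [Matrix.of_apply, hX]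
    congr 1
    apply Finset.sum_congr rfl
    intro k _
    have h1 : ∀ c : Fin N, ∏ t : Fin m, x k (onesThen m c t) = x k 0 ^ (m - 1) * x k c := by
      intro c
      obtain ⟨l, hl⟩ : ∃ l, m = l + 1 := ⟨m - 1, by omega⟩
      clear_value m
      subst hl
      rw [Fin.prod_univ_castSucc]
      congr 1
      · rw [Finset.prod_congr rfl (g := fun _ => x k 0)]
        · simp
        · intro t _
          have : ((t.castSucc : Fin (l + 1)) : ℕ) + 1 ≠ l + 1 := by
            rw [Fin.val_castSucc]
            have := t.2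
            omega
          rw [onesThen, if_neg this]
      · simp [onesThen]
    rw [h1, h1]
    have h2 : x k 0 ^ (m - 1) * x k 0 ^ (m - 1) = 1 := by
      rw [← mul_pow, hx, one_pow]
    linear_combination (x k a * x k b) * h2
  · have : (Matrix.of fun i j => (1 / K : ℝ) * ∑ k, (∏ t, x k (i t)) * ∏ t, x k (j t) :
        Matrix (Fin m → Fin N) (Fin m → Fin N) ℝ) =
        (1 / K : ℝ) • ∑ k, Matrix.vecMulVec (fun i : Fin m → Fin N => ∏ t, x k (i t))
          (star (fun i : Fin m → Fin N => ∏ t, x k (i t))) := by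
      ext i j
      rw [Matrix.smul_apply, Matrix.sum_apply, Matrix.of_apply, smul_eq_mul]
      congr 1
    rw [this]
    apply Matrix.PosSemidef.smul _ (by positivity)
    apply Matrix.posSemidef_sum
    intro k _
    exact Matrix.posSemidef_vecMulVec_self_star _

/-- The generalized elliptopes decrease. -/
theorem elliptope_succ [NeZero N] {m : ℕ} (hm : 1 ≤ m) {X : Matrix (Fin N) (Fin N) ℝ}
    (h : X ∈ elliptope N (2 * (m + 1))) : X ∈ elliptope N (2 * m) := by
  unfold elliptope at h ⊢
  rw [Set.mem_ofPred_eq] at h ⊢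
  rw [Nat.mul_div_cancel_left _ (by norm_num)] at h ⊢
  obtain ⟨Y, h1, h2, h3, h4, h5⟩ := h
  have hmult : ∀ (i j : Fin m → Fin N) (a : Fin N),
      mult (Fin.cons 0 i : Fin (m + 1) → Fin N) (Fin.cons 0 j) a =
        mult i j a + if a = 0 then 2 else 0 := by
    intro i j a
    have h6 : ∀ i : Fin m → Fin N, (Finset.univ.filter fun k =>
        (Fin.cons 0 i : Fin (m + 1) → Fin N) k = a).card =
        (Finset.univ.filter fun k => i k = a).card + if a = 0 then 1 else 0 := by
      intro i
      rw [Finset.card_filter, Finset.card_filter, Fin.sum_univ_succ]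
      simp only [Fin.cons_zero, Fin.cons_succ]
      rw [add_comm]
      congr 1
      by_cases ha : a = 0
      · simp [ha]
      · simp [ha, Ne.symm ha]
    rw [mult, mult, h6, h6]
    split_ifs <;> omega
  have hodd : ∀ i j : Fin m → Fin N, oddSet (Fin.cons 0 i : Fin (m + 1) → Fin N) (Fin.cons 0 j) =
      oddSet i j := by
    intro i j
    unfold oddSet
    ext a
    rw [Finset.mem_filter, Finset.mem_filter, hmult]
    split_ifs
    · rw [Nat.odd_add]
      simp
    · simp
  have hones : ∀ c : Fin N, (Fin.cons 0 (onesThen m c) : Fin (m + 1) → Fin N) =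
      onesThen (m + 1) c := by
    intro c
    ext k
    refine Fin.cases ?_ (fun k => ?_) k
    · rw [Fin.cons_zero, onesThen, if_neg (by simp; omega)]
    · rw [Fin.cons_succ, onesThen, onesThen, Fin.val_succ]
      simp
  refine ⟨Y.submatrix (fun i => Fin.cons 0 i) (fun i => Fin.cons 0 i), ?_, ?_, ?_, ?_, ?_⟩
  · rw [Matrix.transpose_submatrix, h1]
  · intro i j hij
    rw [Matrix.submatrix_apply]
    apply h2
    intro a
    rw [hmult]
    have := hij a
    split_ifs
    · exact this.add even_two
    · simpa using this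
  · intro i j i' j' hij
    rw [Matrix.submatrix_apply, Matrix.submatrix_apply]
    apply h3
    rw [hodd, hodd, hij]
  · intro i j
    rw [Matrix.submatrix_apply, hones, hones, h4]
  · exact h5.submatrix _


/-! ### From a point of the elliptope of degree `2N` to a distribution on sign vectors -/

/-- The sign vector of a set. -/
def sg (Z : Finset (Fin N)) (a : Fin N) : ℝ := if a ∈ Z then -1 else 1

theorem sg_mul_self (Z : Finset (Fin N)) (a : Fin N) : sg Z a * sg Z a = 1 := by
  unfold sg; split_ifs <;> norm_num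

theorem prod_sg (S Z : Finset (Fin N)) : ∏ c ∈ S, sg Z c = ∏ c ∈ Z, sg S c := by
  unfold sg
  rw [Finset.prod_ite, Finset.prod_ite, Finset.prod_const, Finset.prod_const_one,
    Finset.prod_const, Finset.prod_const_one, Finset.filter_mem_eq_inter,
    Finset.filter_mem_eq_inter, Finset.inter_comm]

/-- The tuple of a set. -/
def rep [NeZero N] (S : Finset (Fin N)) : Fin N → Fin N := fun k => if k ∈ S then k else 0

theorem mult_rep [NeZero N] (S T : Finset (Fin N)) {c : Fin N} (hc : c ≠ 0) :
    mult (rep S) (rep T) c = (if c ∈ S then 1 else 0) + if c ∈ T then 1 else 0 := by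
  have h : ∀ S : Finset (Fin N), (Finset.univ.filter fun k => rep S k = c).card =
      if c ∈ S then 1 else 0 := by
    intro S
    by_cases hS : c ∈ S
    · rw [if_pos hS, Finset.card_eq_one]
      refine ⟨c, ?_⟩
      ext k
      rw [Finset.mem_filter, Finset.mem_singleton, rep]
      constructor
      · rintro ⟨-, h⟩
        split_ifs at h with h'
        · exact h
        · exact absurd h.symm hc
      · rintro rfl
        simp [hS]
    · rw [if_neg hS, Finset.card_eq_zero, Finset.filter_eq_empty_iff]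
      intro k _ h
      rw [rep] at h
      split_ifs at h with h'
      · exact hS (h ▸ h')
      · exact hc h.symm
  rw [mult, h, h]

theorem mult_onesThen [NeZero N] {m : ℕ} (hm : 1 ≤ m) (a b : Fin N) {c : Fin N} (hc : c ≠ 0) :
    mult (onesThen m a) (onesThen m b) c = (if c = a then 1 else 0) + if c = b then 1 else 0 := by
  have h : ∀ a : Fin N, (Finset.univ.filter fun k => onesThen m a k = c).card =
      if c = a then 1 else 0 := by
    intro a
    by_cases hS : c = a
    · rw [if_pos hS, Finset.card_eq_one]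
      refine ⟨⟨m - 1, by omega⟩, ?_⟩
      ext k
      rw [Finset.mem_filter, Finset.mem_singleton, onesThen]
      constructor
      · rintro ⟨-, h⟩
        split_ifs at h with h'
        · apply Fin.ext
          simp only
          omega
        · exact absurd h.symm hc
      · rintro rfl
        have : (m - 1) + 1 = m := by omega
        simp [this, hS]
    · rw [if_neg hS, Finset.card_eq_zero, Finset.filter_eq_empty_iff]
      intro k _ h
      rw [onesThen] at h
      split_ifs at h with h'
      · exact hS h.symm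
      · exact hc h.symm
  rw [mult, h, h]

theorem even_card_oddSet {m : ℕ} (i j : Fin m → Fin N) : Even (oddSet i j).card := by
  rw [← Nat.not_odd_iff_even, oddSet, ← Finset.odd_sum_iff_odd_card_odd, Nat.not_odd_iff_even]
  have h : ∀ i : Fin m → Fin N, ∑ a, (Finset.univ.filter fun k => i k = a).card = m := by
    intro i
    have := Finset.card_eq_sum_card_fiberwise (s := (Finset.univ : Finset (Fin m)))
      (t := Finset.univ) (f := i) (by intro x _; simp)
    rw [← this, Finset.card_univ, Fintype.card_fin]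
  have : ∑ a, mult i j a = m + m := by
    unfold mult
    rw [Finset.sum_add_distrib, h, h]
  rw [this]
  exact ⟨m, rfl⟩

theorem eq_of_even_card [NeZero N] {A B : Finset (Fin N)} (hA : Even A.card) (hB : Even B.card)
    (h : ∀ c, c ≠ 0 → (c ∈ A ↔ c ∈ B)) : A = B := by
  have h1 : A.erase 0 = B.erase 0 := by
    ext c
    rw [Finset.mem_erase, Finset.mem_erase]
    constructor
    · rintro ⟨hc, hcA⟩
      exact ⟨hc, (h c hc).1 hcA⟩
    · rintro ⟨hc, hcB⟩
      exact ⟨hc, (h c hc).2 hcB⟩
  have h2 : (0 : Fin N) ∈ A ↔ (0 : Fin N) ∈ B := by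
    constructor
    · intro h0
      by_contra h0'
      rw [Finset.erase_eq_of_notMem h0'] at h1
      have := Finset.card_erase_add_one h0
      rw [h1] at this
      rw [← this] at hA
      exact (Nat.even_add_one.1 hA) hB
    · intro h0
      by_contra h0'
      rw [Finset.erase_eq_of_notMem h0'] at h1
      have := Finset.card_erase_add_one h0
      rw [← h1] at this
      rw [← this] at hB
      exact (Nat.even_add_one.1 hB) hA
  ext c
  by_cases hc : c = 0
  · rw [hc, h2]
  · exact h c hc

theorem parity_aux (p q r t : Prop) [Decidable p] [Decidable q] [Decidable r] [Decidable t]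
    (h : (if p then (-1 : ℝ) else 1) = (if q then -1 else 1) *
      ((if r then -1 else 1) * (if t then -1 else 1))) :
    Odd ((if p then 1 else 0) + if q then 1 else 0) ↔
      Odd ((if r then 1 else 0) + if t then 1 else 0) := by
  by_cases hp : p <;> by_cases hq : q <;> by_cases hr : r <;> by_cases ht : t <;>
    simp [hp, hq, hr, ht] at h ⊢ <;> norm_num at h

theorem exists_distribution [NeZero N] {X : Matrix (Fin N) (Fin N) ℝ}
    (h : X ∈ elliptope N (2 * N)) :
    ∃ w : Finset (Fin N) → ℝ, (∀ Z, 0 ≤ w Z) ∧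
      ∀ a b, ∑ Z ∈ ((Finset.univ : Finset (Fin N)).erase 0).powerset,
        w Z * (sg Z a * sg Z b) = X a b := by
  classical
  have hN : 1 ≤ N := NeZero.one_le
  unfold elliptope at h
  rw [Set.mem_ofPred_eq, Nat.mul_div_cancel_left _ (by norm_num)] at h
  obtain ⟨Y, -, -, h3, h4, h5⟩ := h
  set P := ((Finset.univ : Finset (Fin N)).erase 0).powerset with hP
  set y : Finset (Fin N) → Finset (Fin N) → ℝ := fun S T => Y (rep S) (rep T) with hy
  set χ : Finset (Fin N) → Finset (Fin N) → ℝ := fun S Z => ∏ c ∈ S, sg Z c with hχ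
  set C : ℝ := 2 ^ (N - 1) with hC
  have hCpos : 0 < C := by positivity
  refine ⟨fun Z => (C * C)⁻¹ * ∑ S ∈ P, ∑ T ∈ P, χ S Z * (χ T Z * y S T), ?_, ?_⟩
  · intro Z
    apply mul_nonneg (by positivity)
    have h6 := (h5.submatrix (fun S : Finset (Fin N) => rep S)).dotProduct_mulVec_nonneg
      (fun S => if S ∈ P then χ S Z else 0)
    rw [star_trivial] at h6
    have h7 : (fun S => if S ∈ P then χ S Z else 0) ⬝ᵥ
        (Y.submatrix (fun S : Finset (Fin N) => rep S) (fun S => rep S) *ᵥ
          fun S => if S ∈ P then χ S Z else 0) =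
        ∑ S ∈ P, ∑ T ∈ P, χ S Z * (χ T Z * y S T) := by
      simp only [dotProduct, Matrix.mulVec, ite_mul, zero_mul, mul_ite, mul_zero]
      rw [Finset.sum_ite_mem, Finset.univ_inter]
      apply Finset.sum_congr rfl
      intro S _
      rw [Finset.sum_ite_mem, Finset.univ_inter, Finset.mul_sum]
      apply Finset.sum_congr rfl
      intro T _
      rw [Matrix.submatrix_apply]
      ring
    rw [h7] at h6
    exact h6
  · intro a b
    have key : ∀ T ∈ P, ∑ S ∈ P, y S T * ∑ Z ∈ P, χ S Z * χ T Z * (sg Z a * sg Z b) =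
        C * X a b := by
      intro T hT
      have hTsub : ∀ c ∈ T, c ≠ 0 := by
        intro c hc
        have := (Finset.mem_powerset.1 hT) hc
        exact (Finset.mem_erase.1 this).1
      set S0 : Finset (Fin N) := (Finset.univ.erase 0).filter
        (fun c => sg T c * (sg {a} c * sg {b} c) = -1) with hS0
      have hS0P : S0 ∈ P := Finset.mem_powerset.2 (Finset.filter_subset _ _)
      have hsgS0 : ∀ c, c ≠ 0 → sg S0 c = sg T c * (sg {a} c * sg {b} c) := by
        intro c hc
        have h6 : c ∈ S0 ↔ sg T c * (sg {a} c * sg {b} c) = -1 := by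
          rw [hS0, Finset.mem_filter, Finset.mem_erase]
          simp [hc]
        by_cases h7 : sg T c * (sg {a} c * sg {b} c) = -1
        · rw [h7]
          have : c ∈ S0 := h6.2 h7
          simp [sg, this]
        · have h8 : c ∉ S0 := fun h => h7 (h6.1 h)
          have h9 : sg S0 c = 1 := by simp [sg, h8]
          rw [h9]
          revert h7
          unfold sg
          split_ifs <;> norm_num
      have hinner : ∀ S ∈ P, ∑ Z ∈ P, χ S Z * χ T Z * (sg Z a * sg Z b) =
          if S = S0 then C else 0 := by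
        intro S hS
        have h6 : ∀ Z : Finset (Fin N), χ S Z * χ T Z * (sg Z a * sg Z b) =
            ∏ c ∈ Z, (sg S c * (sg T c * (sg {a} c * sg {b} c))) := by
          intro Z
          have ha : sg Z a = ∏ c ∈ Z, sg {a} c := by rw [← prod_sg, Finset.prod_singleton]
          have hb : sg Z b = ∏ c ∈ Z, sg {b} c := by rw [← prod_sg, Finset.prod_singleton]
          rw [ha, hb, hχ]
          simp only
          rw [prod_sg S Z, prod_sg T Z, Finset.prod_mul_distrib, Finset.prod_mul_distrib,
            Finset.prod_mul_distrib, mul_assoc]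
        rw [Finset.sum_congr rfl (fun Z _ => h6 Z), hP, ← Finset.prod_one_add]
        split_ifs with hSS
        · have : ∀ c ∈ (Finset.univ : Finset (Fin N)).erase 0,
              1 + (sg S c * (sg T c * (sg {a} c * sg {b} c))) = 2 := by
            intro c hc
            rw [← hsgS0 c (Finset.mem_erase.1 hc).1, hSS, sg_mul_self]
            norm_num
          rw [Finset.prod_congr rfl this, Finset.prod_const,
            Finset.card_erase_of_mem (Finset.mem_univ _), Finset.card_univ, Fintype.card_fin]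
        · have : ∃ c ∈ (Finset.univ : Finset (Fin N)).erase 0, sg S c * sg S0 c = -1 := by
            by_contra hcon
            push Not at hcon
            apply hSS
            ext c
            by_cases hc : c = 0
            · subst hc
              constructor
              · intro h0
                have := Finset.mem_powerset.1 hS h0
                simp at this
              · intro h0
                have := Finset.mem_powerset.1 hS0P h0
                simp at this
            · have h10 := hcon c (Finset.mem_erase.2 ⟨hc, Finset.mem_univ _⟩)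
              unfold sg at h10
              by_cases h11 : c ∈ S <;> by_cases h12 : c ∈ S0 <;> simp [h11, h12] at h10 ⊢
          obtain ⟨c, hc, hcc⟩ := this
          apply Finset.prod_eq_zero hc
          rw [← hsgS0 c (Finset.mem_erase.1 hc).1, hcc]
          norm_num
      have hyS0 : y S0 T = X a b := by
        rw [← h4 a b, hy]
        apply h3
        apply eq_of_even_card (even_card_oddSet _ _) (even_card_oddSet _ _)
        intro c hc
        rw [oddSet, oddSet, Finset.mem_filter, Finset.mem_filter, mult_rep _ _ hc,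
          mult_onesThen hN _ _ hc]
        have h6 := hsgS0 c hc
        unfold sg at h6
        simp only [Finset.mem_singleton] at h6
        exact and_congr_right fun _ => parity_aux _ _ _ _ h6
      rw [Finset.sum_congr rfl (fun S hS => by rw [hinner S hS])]
      simp only [mul_ite, mul_zero]
      rw [Finset.sum_ite_eq' P S0, if_pos hS0P, hyS0, mul_comm]
    calc ∑ Z ∈ P, (C * C)⁻¹ * (∑ S ∈ P, ∑ T ∈ P, χ S Z * (χ T Z * y S T)) * (sg Z a * sg Z b)
        = (C * C)⁻¹ * ∑ T ∈ P, ∑ S ∈ P, y S T * ∑ Z ∈ P, χ S Z * χ T Z * (sg Z a * sg Z b) := by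
          have e1 : ∀ Z ∈ P, (C * C)⁻¹ * (∑ S ∈ P, ∑ T ∈ P, χ S Z * (χ T Z * y S T)) *
              (sg Z a * sg Z b) =
              (C * C)⁻¹ * ∑ T ∈ P, ∑ S ∈ P, y S T * (χ S Z * χ T Z * (sg Z a * sg Z b)) := by
            intro Z _
            rw [mul_assoc, Finset.sum_comm, Finset.sum_mul]
            congr 1
            apply Finset.sum_congr rfl
            intro T _
            rw [Finset.sum_mul]
            apply Finset.sum_congr rfl
            intro S _
            ring
          rw [Finset.sum_congr rfl e1, ← Finset.mul_sum, Finset.sum_comm]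
          congr 1
          apply Finset.sum_congr rfl
          intro T _
          rw [Finset.sum_comm]
          apply Finset.sum_congr rfl
          intro S _
          rw [Finset.mul_sum]
      _ = (C * C)⁻¹ * ∑ T ∈ P, C * X a b := by
          rw [Finset.sum_congr rfl key]
      _ = X a b := by
          rw [Finset.sum_const, hP, Finset.card_powerset,
            Finset.card_erase_of_mem (Finset.mem_univ _), Finset.card_univ, Fintype.card_fin,
            nsmul_eq_mul, Nat.cast_pow, Nat.cast_ofNat, ← hC]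
          field_simp


/-! ### Computation with integer matrices -/

/-- Sums of integers, for evaluation. -/
def sumN (f : ℕ → ℤ) : ℕ → ℤ
  | 0 => 0
  | n + 1 => sumN f n + f n

theorem sumN_eq (f : ℕ → ℤ) (n : ℕ) : sumN f n = ∑ i ∈ Finset.range n, f i := by
  induction n with
  | zero => rfl
  | succ n ih => rw [sumN, ih, Finset.sum_range_succ]

/-- The matrix `7 X` for the Latin square graph of the Cayley table of `ℤ/6`. The cell `a` lies in
row `a / 6` and column `a % 6` and carries the symbol `(a / 6 + a % 6) % 6`. -/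
def Mw (a b : ℕ) : ℤ :=
  cond (Nat.beq a b) 7
    (cond (Nat.beq (a / 6) (b / 6) || Nat.beq (a % 6) (b % 6) ||
      Nat.beq ((a / 6 + a % 6) % 6) ((b / 6 + b % 6) % 6)) (-1) 1)

/-- The sign vectors of length 8 (as bit masks): the constant one and the balanced ones with first
entry `1`. -/
def masks : List ℕ := [0, 30, 46, 54, 58, 60, 78, 86, 90, 92, 102, 106, 108, 114, 116, 120, 142, 150, 154, 156,
  166, 170, 172, 178, 180, 184, 198, 202, 204, 210, 212, 216, 226, 228, 232, 240]

/-- The pairs of positions (as bit masks). -/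
def pairs : List ℕ := [3, 5, 9, 17, 33, 65, 129, 6, 10, 18, 34, 66, 130, 12, 20, 36, 68, 132, 24, 40, 72, 136,
  48, 80, 144, 96, 160, 192]

/-- The number of binary digits equal to one (below 256). -/
def pc (n : ℕ) : ℕ :=
  n % 2 + n / 2 % 2 + n / 4 % 2 + n / 8 % 2 + n / 16 % 2 + n / 32 % 2 + n / 64 % 2 + n / 128 % 2

/-- The matrix `7 X` of the second frame. -/
def Mv (a b : ℕ) : ℤ :=
  cond (Nat.beq (pc (Nat.xor (masks.getD a 0) (masks.getD b 0))) 0) 7
    (cond (Nat.beq (pc (Nat.xor (masks.getD a 0) (masks.getD b 0))) 4) (-1) 1)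

/-- The product of the two entries at the `k`-th pair of positions. -/
def sv (k a : ℕ) : ℤ :=
  cond (Nat.beq (pc (Nat.land (masks.getD a 0) (pairs.getD k 0))) 1) (-1) 1

/-- The difference of two indicator functions. -/
def ut (t : ℕ → ℕ) (i a : ℕ) : ℤ :=
  cond (Nat.beq (t a) i) 1 0 - cond (Nat.beq (t a) 0) 1 0

/-- Check of a statement for all pairs of indices. -/
def all2 (f : ℕ → ℕ → Bool) : Bool :=
  (List.range 36).all fun a => (List.range 36).all fun b => f a b

theorem of_all2 {f : ℕ → ℕ → Bool} (h : all2 f = true) {a b : ℕ} (ha : a < 36) (hb : b < 36) :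
    f a b = true := by
  unfold all2 at h
  rw [List.all_eq_true] at h
  have := h a (List.mem_range.2 ha)
  rw [List.all_eq_true] at this
  exact this b (List.mem_range.2 hb)

theorem Mw_sq : all2 (fun a b => decide (sumN (fun c => Mw a c * Mw c b) 36 = 12 * Mw a b)) =
    true := by decide +kernel

theorem Mv_sq : all2 (fun a b => decide (sumN (fun c => Mv a c * Mv c b) 36 = 12 * Mv a b)) =
    true := by decide +kernel

theorem Mv_sv : all2 (fun a b => decide (sumN (fun k => sv k a * sv k b) 28 = 4 * Mv a b)) =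
    true := by decide +kernel

theorem Mw_symm : all2 (fun a b => decide (Mw a b = Mw b a)) = true := by decide +kernel

theorem Mv_symm : all2 (fun a b => decide (Mv a b = Mv b a)) = true := by decide +kernel

theorem Mw_diag : all2 (fun a _ => decide (Mw a a = 7)) = true := by decide +kernel

theorem Mv_diag : all2 (fun a _ => decide (Mv a a = 7)) = true := by decide +kernel

theorem Mw_off : all2 (fun a b => decide (a = b ∨ Mw a b = 1 ∨ Mw a b = -1)) = true := by
  decide +kernel

theorem Mv_off : all2 (fun a b => decide (a = b ∨ Mv a b = 1 ∨ Mv a b = -1)) = true := by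
  decide +kernel


theorem utw : ((List.range 6).all fun i =>
    decide (sumN (fun a => sumN (fun b => ut (fun a => a / 6) i a * ut (fun a => a / 6) i b *
      Mw a b) 36) 36 = 0) &&
    decide (sumN (fun a => sumN (fun b => ut (fun a => a % 6) i a * ut (fun a => a % 6) i b *
      Mw a b) 36) 36 = 0) &&
    decide (sumN (fun a => sumN (fun b => ut (fun a => (a / 6 + a % 6) % 6) i a *
      ut (fun a => (a / 6 + a % 6) % 6) i b * Mw a b) 36) 36 = 0) &&
    decide (sumN (fun a => ut (fun a => a / 6) i a) 36 = 0) &&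
    decide (sumN (fun a => ut (fun a => a % 6) i a) 36 = 0) &&
    decide (sumN (fun a => ut (fun a => (a / 6 + a % 6) % 6) i a) 36 = 0)) = true := by
  decide +kernel

theorem total_w : sumN (fun a => sumN (fun b => Mw a b) 36) 36 = 432 := by decide +kernel

/-- The real matrix of an integer matrix, divided by 7. -/
noncomputable def realM (M : ℕ → ℕ → ℤ) : Matrix (Fin 36) (Fin 36) ℝ :=
  Matrix.of fun a b => (M a b : ℝ) / 7

theorem exists_frame (M : ℕ → ℕ → ℤ)
    (hsq : all2 (fun a b => decide (sumN (fun c => M a c * M c b) 36 = 12 * M a b)) = true)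
    (hsymm : all2 (fun a b => decide (M a b = M b a)) = true)
    (hdiag : all2 (fun a _ => decide (M a a = 7)) = true)
    (hoff : all2 (fun a b => decide (a = b ∨ M a b = 1 ∨ M a b = -1)) = true) :
    ∃ v : Fin 36 → Fin 21 → ℝ, IsRealETF v ∧ gram v = realM M := by
  have h1 : (realM M)ᵀ = realM M := by
    ext a b
    have := of_decide_eq_true (of_all2 hsymm a.2 b.2)
    rw [Matrix.transpose_apply, realM, Matrix.of_apply, Matrix.of_apply, this]
  have h2 : realM M * realM M = (12 / 7 : ℝ) • realM M := by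
    ext a b
    have := of_decide_eq_true (of_all2 hsq a.2 b.2)
    rw [sumN_eq] at this
    rw [Matrix.mul_apply, Matrix.smul_apply, realM]
    simp only [Matrix.of_apply, smul_eq_mul]
    have h3 : ((∑ i ∈ Finset.range 36, M a i * M i b : ℤ) : ℝ) = 12 * M a b := by
      rw [this]; push_cast; ring
    rw [Finset.sum_range] at h3
    push_cast at h3
    calc ∑ c : Fin 36, (M a c : ℝ) / 7 * ((M c b : ℝ) / 7)
        = (∑ c : Fin 36, (M a c : ℝ) * (M c b : ℝ)) / 49 := by
          rw [Finset.sum_div]
          apply Finset.sum_congr rfl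
          intro c _
          ring
      _ = 12 / 7 * ((M a b : ℝ) / 7) := by rw [h3]; ring
  have hd : ∀ a : Fin 36, M a a = 7 := fun a => of_decide_eq_true (of_all2 hdiag a.2 a.2)
  have h3 : (realM M).trace = (12 / 7 : ℝ) * (21 : ℕ) := by
    rw [Matrix.trace]
    have : ∀ a : Fin 36, (realM M).diag a = 1 := by
      intro a
      rw [Matrix.diag_apply, realM, Matrix.of_apply, hd a]; norm_num
    rw [Finset.sum_congr rfl (fun a _ => this a)]
    norm_num
  obtain ⟨v, hv1, hv2⟩ := Pool.Agent.Q95.Etf.exists_vectors (realM M) h1 (12 / 7) (by norm_num)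
    h2 h3
  refine ⟨v, ⟨?_, ?_, ?_⟩, ?_⟩
  · intro i
    rw [hv1, realM, Matrix.of_apply, hd i]; norm_num
  · rw [hv2]
    norm_num
  · refine ⟨1 / 7, by norm_num, by norm_num, ?_⟩
    intro i j hij
    rw [hv1, realM, Matrix.of_apply]
    rcases of_decide_eq_true (of_all2 hoff i.2 j.2) with h | h | h
    · exact absurd (Fin.ext h) hij
    · rw [h]; norm_num [abs_of_pos]
    · rw [h]; norm_num [abs_of_neg]
  · ext i j
    rw [gram, Matrix.of_apply, hv1]

theorem sv_sq (k a : ℕ) : (sv k a : ℝ) * sv k a = 1 := by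
  unfold sv
  cases Nat.beq (pc (Nat.land (masks.getD a 0) (pairs.getD k 0))) 1 <;> simp

theorem Mv_mem (d : ℕ) (hd : 0 < d) (hde : Even d) : realM Mv ∈ elliptope 36 d := by
  apply mem_elliptope_of_signs (K := 28) (by norm_num) (fun k a => (sv k a : ℝ))
    (fun k a => sv_sq k a) _ _ d hd hde
  intro a b
  have := of_decide_eq_true (of_all2 Mv_sv a.2 b.2)
  rw [sumN_eq] at this
  have h3 : ((∑ k ∈ Finset.range 28, sv k a * sv k b : ℤ) : ℝ) = 4 * Mv a b := by
    rw [this]; push_cast; ring
  rw [Finset.sum_range] at h3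
  push_cast at h3
  rw [realM, Matrix.of_apply, h3]
  ring

/-! ### The frame of the Cayley table -/

theorem quad {w : Finset (Fin 36) → ℝ} {P : Finset (Finset (Fin 36))}
    {X : Matrix (Fin 36) (Fin 36) ℝ}
    (hw : ∀ a b, ∑ Z ∈ P, w Z * (sg Z a * sg Z b) = X a b) (u : Fin 36 → ℝ) :
    ∑ Z ∈ P, w Z * (∑ a, u a * sg Z a) ^ 2 = ∑ a, ∑ b, u a * u b * X a b := by
  have h1 : ∀ Z ∈ P, w Z * (∑ a, u a * sg Z a) ^ 2 =
      ∑ a, ∑ b, u a * u b * (w Z * (sg Z a * sg Z b)) := by
    intro Z _
    rw [pow_two, Finset.sum_mul_sum, Finset.mul_sum]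
    apply Finset.sum_congr rfl
    intro a _
    rw [Finset.mul_sum]
    apply Finset.sum_congr rfl
    intro b _
    ring
  rw [Finset.sum_congr rfl h1, Finset.sum_comm]
  apply Finset.sum_congr rfl
  intro a _
  rw [Finset.sum_comm]
  apply Finset.sum_congr rfl
  intro b _
  rw [← Finset.mul_sum, hw]

/-- The number of elements of `Z` with `t a = i`. -/
def cnt (Z : Finset (Fin 36)) (t : ℕ → ℕ) (i : ℕ) : ℕ := (Z.filter fun a : Fin 36 => t a = i).card

theorem ut_eq (t : ℕ → ℕ) (i a : ℕ) :
    ut t i a = (if t a = i then 1 else 0) - if t a = 0 then 1 else 0 := by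
  unfold ut
  congr 1
  · by_cases h : t a = i
    · simp [h]
    · rw [if_neg h]
      have : Nat.beq (t a) i = false := by
        rw [Bool.eq_false_iff]; exact fun h' => h (Nat.eq_of_beq_eq_true h')
      rw [this]; rfl
  · by_cases h : t a = 0
    · simp [h]
    · rw [if_neg h]
      have : Nat.beq (t a) 0 = false := by
        rw [Bool.eq_false_iff]; exact fun h' => h (Nat.eq_of_beq_eq_true h')
      rw [this]; rfl

theorem sum_ut_sg (Z : Finset (Fin 36)) (t : ℕ → ℕ) (i : ℕ)
    (h0 : sumN (fun a => ut t i a) 36 = 0) :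
    ∑ a : Fin 36, (ut t i a : ℝ) * sg Z a = 2 * ((cnt Z t 0 : ℝ) - cnt Z t i) := by
  have h1 : ∀ a : Fin 36, (ut t i a : ℝ) * sg Z a =
      ut t i a - 2 * (if a ∈ Z then (ut t i a : ℝ) else 0) := by
    intro a
    unfold sg
    split_ifs <;> ring
  have h2 : ∑ a : Fin 36, (ut t i a : ℝ) = 0 := by
    rw [sumN_eq, Finset.sum_range] at h0
    exact_mod_cast h0
  rw [Finset.sum_congr rfl (fun a _ => h1 a), Finset.sum_sub_distrib, h2, ← Finset.mul_sum,
    Finset.sum_ite_mem, Finset.univ_inter]
  have h3 : ∑ a ∈ Z, (ut t i a : ℝ) = (cnt Z t i : ℝ) - cnt Z t 0 := by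
    rw [cnt, cnt, Finset.card_filter, Finset.card_filter, Nat.cast_sum, Nat.cast_sum,
      ← Finset.sum_sub_distrib]
    apply Finset.sum_congr rfl
    intro a _
    rw [ut_eq]
    push_cast
    rfl
  rw [h3]
  ring

theorem sum_sg (Z : Finset (Fin 36)) : ∑ a : Fin 36, (1 : ℝ) * sg Z a = 36 - 2 * Z.card := by
  have h1 : ∀ a : Fin 36, (1 : ℝ) * sg Z a = 1 - 2 * (if a ∈ Z then (1 : ℝ) else 0) := by
    intro a
    unfold sg
    split_ifs <;> ring
  rw [Finset.sum_congr rfl (fun a _ => h1 a), Finset.sum_sub_distrib, ← Finset.mul_sum,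
    Finset.sum_ite_mem, Finset.univ_inter]
  simp

theorem card_eq_sum_cnt (Z : Finset (Fin 36)) (t : ℕ → ℕ) (ht : ∀ a : Fin 36, t a < 6) :
    Z.card = ∑ i ∈ Finset.range 6, cnt Z t i := by
  rw [Finset.card_eq_sum_card_fiberwise (f := fun a : Fin 36 => t a) (t := Finset.range 6)]
  · rfl
  · intro a _
    simp [ht a]

theorem sum_eq_sum_cnt (Z : Finset (Fin 36)) (t : ℕ → ℕ) (ht : ∀ a : Fin 36, t a < 6) :
    ∑ a ∈ Z, t a = ∑ i ∈ Finset.range 6, i * cnt Z t i := by
  rw [← Finset.sum_fiberwise_of_maps_to (s := Z) (g := fun a : Fin 36 => t a)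
    (t := Finset.range 6) (f := fun a : Fin 36 => t a) (by intro a _; simp [ht a])]
  apply Finset.sum_congr rfl
  intro i _
  rw [Finset.sum_congr rfl (g := fun _ => i), Finset.sum_const, smul_eq_mul, mul_comm]
  · rfl
  · intro a ha
    exact (Finset.mem_filter.1 ha).2

theorem not_plex (Z : Finset (Fin 36))
    (h1 : ∀ i < 6, cnt Z (fun a => a / 6) i = cnt Z (fun a => a / 6) 0)
    (h2 : ∀ i < 6, cnt Z (fun a => a % 6) i = cnt Z (fun a => a % 6) 0)
    (h3 : ∀ i < 6, cnt Z (fun a => (a / 6 + a % 6) % 6) i =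
      cnt Z (fun a => (a / 6 + a % 6) % 6) 0) :
    Z.card ≠ 18 := by
  intro hZ
  have hr : ∀ a : Fin 36, (fun a : ℕ => a / 6) a < 6 := fun a => by
    have := a.2
    change (a : ℕ) / 6 < 6
    omega
  have hc : ∀ a : Fin 36, (fun a : ℕ => a % 6) a < 6 := fun a => Nat.mod_lt _ (by norm_num)
  have hs : ∀ a : Fin 36, (fun a : ℕ => (a / 6 + a % 6) % 6) a < 6 :=
    fun a => Nat.mod_lt _ (by norm_num)
  have key : ∀ t : ℕ → ℕ, (∀ a : Fin 36, t a < 6) → (∀ i < 6, cnt Z t i = cnt Z t 0) →
      ∑ a ∈ Z, t a = 45 := by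
    intro t ht hi
    have e1 := card_eq_sum_cnt Z t ht
    have e2 := sum_eq_sum_cnt Z t ht
    simp only [Finset.sum_range_succ, Finset.sum_range_zero] at e1 e2
    rw [hi 1 (by norm_num), hi 2 (by norm_num), hi 3 (by norm_num), hi 4 (by norm_num),
      hi 5 (by norm_num)] at e1 e2
    omega
  have k1 : ∑ a ∈ Z, (a : ℕ) / 6 = 45 := key _ hr h1
  have k2 : ∑ a ∈ Z, (a : ℕ) % 6 = 45 := key _ hc h2
  have k3 : ∑ a ∈ Z, ((a : ℕ) / 6 + (a : ℕ) % 6) % 6 = 45 := key _ hs h3
  have k4 : (∑ a ∈ Z, ((a : ℕ) / 6 + (a : ℕ) % 6)) % 6 =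
      (∑ a ∈ Z, ((a : ℕ) / 6 + (a : ℕ) % 6) % 6) % 6 := Finset.sum_nat_mod _ _ _
  rw [Finset.sum_add_distrib] at k4
  rw [k1, k2, k3] at k4
  norm_num at k4

theorem Mw_notMem : realM Mw ∉ elliptope 36 72 := by
  intro h
  obtain ⟨w, hw0, hw⟩ := exists_distribution (N := 36) (X := realM Mw) h
  set P := ((Finset.univ : Finset (Fin 36)).erase 0).powerset with hP
  have hquad := quad hw
  -- the support
  have hsupp : ∀ t : ℕ → ℕ, ∀ i < 6,
      sumN (fun a => sumN (fun b => ut t i a * ut t i b * Mw a b) 36) 36 = 0 →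
      sumN (fun a => ut t i a) 36 = 0 → ∀ Z ∈ P, w Z ≠ 0 → cnt Z t i = cnt Z t 0 := by
    intro t i _ h1 h2 Z hZ hwZ
    have h3 := hquad (fun a => (ut t i a : ℝ))
    have h4 : ∑ a : Fin 36, ∑ b : Fin 36, (ut t i a : ℝ) * (ut t i b : ℝ) * realM Mw a b = 0 := by
      rw [sumN_eq] at h1
      simp only [sumN_eq] at h1
      simp only [Finset.sum_range] at h1
      have h5 : (∑ a : Fin 36, ∑ b : Fin 36, (ut t i a : ℝ) * (ut t i b : ℝ) * (Mw a b : ℝ)) =
          0 := by
        exact_mod_cast h1
      have h6 : ∀ a b : Fin 36, (ut t i a : ℝ) * (ut t i b : ℝ) * realM Mw a b =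
          (ut t i a : ℝ) * (ut t i b : ℝ) * (Mw a b : ℝ) / 7 := by
        intro a b
        rw [realM, Matrix.of_apply]; ring
      simp only [h6, ← Finset.sum_div]
      rw [h5, zero_div]
    rw [h4] at h3
    have h5 := (Finset.sum_eq_zero_iff_of_nonneg (fun Z _ =>
      mul_nonneg (hw0 Z) (sq_nonneg _))).1 h3 Z hZ
    rcases mul_eq_zero.1 h5 with h6 | h6
    · exact absurd h6 hwZ
    · rw [pow_eq_zero_iff two_ne_zero, sum_ut_sg Z t i h2] at h6
      have h7 : (cnt Z t 0 : ℝ) = cnt Z t i := by linarith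
      exact_mod_cast h7.symm
  -- the total weight
  have hone : ∑ Z ∈ P, w Z = 1 := by
    have h1 := hw 0 0
    have h2 : realM Mw 0 0 = 1 := by
      rw [realM, Matrix.of_apply]
      norm_num [Mw]
    rw [h2] at h1
    rw [← h1]
    apply Finset.sum_congr rfl
    intro Z _
    rw [sg_mul_self, mul_one]
  have htot : ∑ Z ∈ P, w Z * (∑ a : Fin 36, (1 : ℝ) * sg Z a) ^ 2 = 432 / 7 := by
    rw [hquad]
    have h1 := total_w
    rw [sumN_eq] at h1
    simp only [sumN_eq] at h1
    simp only [Finset.sum_range] at h1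
    have h5 : (∑ a : Fin 36, ∑ b : Fin 36, (Mw a b : ℝ)) = 432 := by
      exact_mod_cast h1
    simp only [realM, Matrix.of_apply, one_mul, ← Finset.sum_div]
    rw [h5]
  obtain ⟨Z, hZ, hwZ, hle⟩ : ∃ Z ∈ P, w Z ≠ 0 ∧
      (∑ a : Fin 36, (1 : ℝ) * sg Z a) ^ 2 ≤ 432 / 7 := by
    by_contra hcon
    push Not at hcon
    have h1 : ∑ Z ∈ P, w Z * (432 / 7 : ℝ) < ∑ Z ∈ P, w Z *
        (∑ a : Fin 36, (1 : ℝ) * sg Z a) ^ 2 := by
      apply Finset.sum_lt_sum
      · intro Z hZ
        by_cases h : w Z = 0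
        · rw [h, zero_mul, zero_mul]
        · exact mul_le_mul_of_nonneg_left (hcon Z hZ h).le (hw0 Z)
      · obtain ⟨Z, hZ, hne⟩ : ∃ Z ∈ P, w Z ≠ 0 := by
          by_contra hall
          push Not at hall
          rw [Finset.sum_eq_zero hall] at hone
          exact zero_ne_one hone
        exact ⟨Z, hZ, mul_lt_mul_of_pos_left (hcon Z hZ hne)
          (lt_of_le_of_ne (hw0 Z) (Ne.symm hne))⟩
    rw [htot, ← Finset.sum_mul, hone, one_mul] at h1
    exact lt_irrefl _ h1
  have hu := utw
  rw [List.all_eq_true] at hu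
  have hu' : ∀ i < 6, _ := fun i hi => hu i (List.mem_range.2 hi)
  simp only [Bool.and_eq_true, decide_eq_true_eq] at hu'
  have c1 : ∀ i < 6, cnt Z (fun a => a / 6) i = cnt Z (fun a => a / 6) 0 := fun i hi =>
    hsupp _ i hi (hu' i hi).1.1.1.1.1 (hu' i hi).1.1.2 Z hZ hwZ
  have c2 : ∀ i < 6, cnt Z (fun a => a % 6) i = cnt Z (fun a => a % 6) 0 := fun i hi =>
    hsupp _ i hi (hu' i hi).1.1.1.1.2 (hu' i hi).1.2 Z hZ hwZ
  have c3 : ∀ i < 6, cnt Z (fun a => (a / 6 + a % 6) % 6) i =
      cnt Z (fun a => (a / 6 + a % 6) % 6) 0 := fun i hi =>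
    hsupp _ i hi (hu' i hi).1.1.1.2 (hu' i hi).2 Z hZ hwZ
  apply not_plex Z c1 c2 c3
  have e1 := card_eq_sum_cnt Z (fun a => a / 6) (fun a => by
    have := a.2
    change (a : ℕ) / 6 < 6
    omega)
  simp only [Finset.sum_range_succ, Finset.sum_range_zero] at e1
  rw [c1 1 (by norm_num), c1 2 (by norm_num), c1 3 (by norm_num), c1 4 (by norm_num),
    c1 5 (by norm_num)] at e1
  have e2 : Z.card = 6 * cnt Z (fun a => a / 6) 0 := by omega
  rw [sum_sg] at hle
  have e3 : (Z.card : ℝ) = 6 * cnt Z (fun a => a / 6) 0 := by exact_mod_cast e2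
  rw [e3] at hle
  set n := cnt Z (fun a => a / 6) 0 with hn
  have e4 : (36 - 2 * (6 * (n : ℝ))) ^ 2 < 144 := by linarith
  have e5 : |36 - 2 * (6 * (n : ℝ))| < 12 := by
    rw [← sq_lt_sq₀ (abs_nonneg _) (by norm_num), sq_abs]; linarith
  rw [abs_lt] at e5
  have e6 : (n : ℝ) < 4 := by linarith [e5.1]
  have e7 : (2 : ℝ) < n := by linarith [e5.2]
  have e8 : n < 4 := by exact_mod_cast e6
  have e9 : 2 < n := by exact_mod_cast e7
  omega

theorem dstar_v : dstar (realM Mv) = ⊤ := by
  rw [ENat.eq_top_iff_forall_ge]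
  intro m
  have h1 : 2 * (m + 1) ∈ {d : ℕ | 0 < d ∧ Even d ∧ realM Mv ∈ elliptope 36 d} :=
    ⟨by omega, even_two_mul _, Mv_mem _ (by omega) (even_two_mul _)⟩
  calc (m : ℕ∞) ≤ ((2 * (m + 1) : ℕ) : ℕ∞) := by exact_mod_cast (by omega : m ≤ 2 * (m + 1))
    _ ≤ _ := le_iSup₂_of_le (2 * (m + 1)) h1 le_rfl

theorem dstar_w : dstar (realM Mw) ≤ 70 := by
  apply iSup₂_le
  rintro d ⟨hd, ⟨t, ht⟩, hmem⟩
  by_contra hcon
  have h1 : 70 < d := by
    by_contra h
    apply hcon
    exact_mod_cast (by omega : d ≤ 70)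
  have h2 : ∀ k : ℕ, realM Mw ∈ elliptope 36 (2 * (36 + k)) → realM Mw ∈ elliptope 36 72 := by
    intro k
    induction k with
    | zero => exact fun h => h
    | succ k ih =>
      intro h
      exact ih (elliptope_succ (by omega) h)
  apply Mw_notMem
  apply h2 (t - 36)
  have : 2 * (36 + (t - 36)) = d := by omega
  rw [this]
  exact hmem

/-- There are two real equiangular tight frames of `36` vectors in `ℝ^21` such that the Gram
matrix of the first lies in the generalized elliptopes of all degrees and the Gram matrix of the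
second does not lie in the one of degree `72`; so the two values of `d^*` are different. -/
theorem result : ∃ v w : Fin 36 → Fin 21 → ℝ, IsRealETF v ∧ IsRealETF w ∧
    dstar (gram v) = ⊤ ∧ dstar (gram w) ≤ 70 ∧ dstar (gram v) ≠ dstar (gram w) := by
  obtain ⟨v, hv, hv'⟩ := exists_frame Mv Mv_sq Mv_symm Mv_diag Mv_off
  obtain ⟨w, hw, hw'⟩ := exists_frame Mw Mw_sq Mw_symm Mw_diag Mw_off
  refine ⟨v, w, hv, hw, ?_, ?_, ?_⟩
  · rw [hv', dstar_v]
  · rw [hw']; exact dstar_w
  · rw [hv', hw', dstar_v]
    intro h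
    have := dstar_w
    rw [← h] at this
    exact absurd (top_le_iff.1 this) (by decide)

end Pool.Agent.Results.MP_dc1a88_an.DegreeDiffers
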